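import Pool.Agent.Lib_helper25.PV.Defs

/-! Project PV (MP_b08f5f_an), block B5a: density of the monomials and moments. -/

set_option autoImplicit false

namespace Pool.Agent.Lib_helper25.PV

open MeasureTheory Filter Topology Set
open scoped ComplexConjugate

noncomputable section

/-- the closed polydisc of radius `R` -/
def B5a_K (ι : Type*) (R : ℝ) : Set (ι → ℂ) := {w | ∀ i, ‖w i‖ ≤ R}

theorem B5a_isCompact_K (ι : Type*) [Fintype ι] (R : ℝ) : IsCompact (B5a_K ι R) := by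
  have h : B5a_K ι R = Set.pi Set.univ (fun _ : ι => Metric.closedBall (0 : ℂ) R) := by
    ext w
    simp [B5a_K, Set.mem_pi]
  rw [h]
  exact isCompact_univ_pi fun _ => isCompact_closedBall 0 R

theorem B5a_mono_apply {ι : Type*} [Fintype ι] (a b : ι → ℕ) (w : ι → ℂ) :
    mono a b w = ∏ i, (w i ^ a i * conj (w i) ^ b i) := rfl

theorem B5a_turnC_apply {ι : Type*} [Fintype ι] (θ : ℝ) (w : ι → ℂ) (i : ι) :
    turnC θ w i = Complex.exp (θ * Complex.I) * w i := rfl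

theorem B5a_mono_mul {ι : Type*} [Fintype ι] (a b a' b' : ι → ℕ) :
    mono a b * mono a' b' = mono (a + a') (b + b') := by
  ext w
  simp only [ContinuousMap.mul_apply, B5a_mono_apply, ← Finset.prod_mul_distrib]
  refine Finset.prod_congr rfl fun i _ => ?_
  simp only [Pi.add_apply, pow_add]
  ring

theorem B5a_mono_one {ι : Type*} [Fintype ι] : mono (0 : ι → ℕ) 0 = 1 := by
  ext w
  simp [B5a_mono_apply]

theorem B5a_mono_star {ι : Type*} [Fintype ι] (a b : ι → ℕ) : star (mono a b) = mono b a := by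
  ext w
  simp only [ContinuousMap.star_apply, B5a_mono_apply, Complex.star_def, map_prod, map_mul,
    map_pow, Complex.conj_conj]
  refine Finset.prod_congr rfl fun i _ => ?_
  ring

/-- the span of the monomials -/
def B5a_S (ι : Type*) [Fintype ι] : Submodule ℂ C(ι → ℂ, ℂ) :=
  Submodule.span ℂ (Set.range fun p : (ι → ℕ) × (ι → ℕ) => mono p.1 p.2)

theorem B5a_mono_mem {ι : Type*} [Fintype ι] (a b : ι → ℕ) : mono a b ∈ B5a_S ι :=
  Submodule.subset_span ⟨(a, b), rfl⟩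

theorem B5a_S_mul {ι : Type*} [Fintype ι] {f g : C(ι → ℂ, ℂ)} (hf : f ∈ B5a_S ι)
    (hg : g ∈ B5a_S ι) : f * g ∈ B5a_S ι := by
  refine Submodule.span_induction (p := fun f _ => f * g ∈ B5a_S ι) ?_ ?_ ?_ ?_ hf
  · rintro _ ⟨⟨a, b⟩, rfl⟩
    refine Submodule.span_induction (p := fun g _ => mono a b * g ∈ B5a_S ι) ?_ ?_ ?_ ?_ hg
    · rintro _ ⟨⟨a', b'⟩, rfl⟩
      show mono a b * mono a' b' ∈ _
      rw [B5a_mono_mul]
      exact B5a_mono_mem _ _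
    · simp
    · intro x y _ _ hx hy
      rw [mul_add]
      exact add_mem hx hy
    · intro c x _ hx
      rw [mul_smul_comm]
      exact Submodule.smul_mem _ _ hx
  · simp
  · intro x y _ _ hx hy
    rw [add_mul]
    exact add_mem hx hy
  · intro c x _ hx
    rw [smul_mul_assoc]
    exact Submodule.smul_mem _ _ hx

theorem B5a_S_star {ι : Type*} [Fintype ι] {f : C(ι → ℂ, ℂ)} (hf : f ∈ B5a_S ι) :
    star f ∈ B5a_S ι := by
  refine Submodule.span_induction (p := fun f _ => star f ∈ B5a_S ι) ?_ ?_ ?_ ?_ hf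
  · rintro _ ⟨⟨a, b⟩, rfl⟩
    show star (mono a b) ∈ _
    rw [B5a_mono_star]
    exact B5a_mono_mem _ _
  · simp
  · intro x y _ _ hx hy
    rw [star_add]
    exact add_mem hx hy
  · intro c x _ hx
    rw [star_smul]
    exact Submodule.smul_mem _ _ hx

/-- the star subalgebra of the polynomials -/
def B5a_A (ι : Type*) [Fintype ι] : StarSubalgebra ℂ C(ι → ℂ, ℂ) where
  carrier := B5a_S ι
  mul_mem' := B5a_S_mul
  add_mem' := add_mem
  one_mem' := by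
    have := B5a_mono_mem (0 : ι → ℕ) 0
    rwa [B5a_mono_one] at this
  zero_mem' := zero_mem _
  algebraMap_mem' := fun r => by
    have h : (algebraMap ℂ C(ι → ℂ, ℂ)) r = r • (1 : C(ι → ℂ, ℂ)) :=
      Algebra.algebraMap_eq_smul_one r
    rw [h]
    refine Submodule.smul_mem _ _ ?_
    have := B5a_mono_mem (0 : ι → ℕ) 0
    rwa [B5a_mono_one] at this
  star_mem' := B5a_S_star

theorem B5a_coord {ι : Type*} [Fintype ι] [DecidableEq ι] (i : ι) (w : ι → ℂ) :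
    mono (Pi.single i 1) 0 w = w i := by
  rw [B5a_mono_apply, Finset.prod_eq_single i]
  · simp
  · intro j _ hj
    simp [Pi.single_eq_of_ne hj]
  · simp

/-- density on the polydisc -/
theorem B5a_dense {ι : Type*} [Fintype ι] (R : ℝ) (Ψ : C(ι → ℂ, ℂ)) {ε : ℝ} (hε : 0 < ε) :
    ∃ Φ ∈ B5a_S ι, ∀ w, (∀ i, ‖w i‖ ≤ R) → ‖(Ψ - Φ) w‖ ≤ ε := by
  classical
  have : CompactSpace (B5a_K ι R) := isCompact_iff_compactSpace.mp (B5a_isCompact_K ι R)
  let r : C(ι → ℂ, ℂ) →⋆ₐ[ℂ] C(B5a_K ι R, ℂ) :=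
    ContinuousMap.compStarAlgHom' ℂ ℂ ⟨Subtype.val, continuous_subtype_val⟩
  let A : StarSubalgebra ℂ C(B5a_K ι R, ℂ) := (B5a_A ι).map r
  have hsep : A.SeparatesPoints := by
    intro x y hxy
    have hne : (x : ι → ℂ) ≠ y := fun h => hxy (Subtype.ext h)
    obtain ⟨i, hi⟩ := Function.ne_iff.mp hne
    refine ⟨_, ⟨r (mono (Pi.single i 1) 0), ?_, rfl⟩, ?_⟩
    · exact ⟨mono (Pi.single i 1) 0, B5a_mono_mem _ _, rfl⟩
    · show mono (Pi.single i 1) 0 (x : ι → ℂ) ≠ mono (Pi.single i 1) 0 (y : ι → ℂ)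
      rw [B5a_coord, B5a_coord]
      exact hi
  have htop := ContinuousMap.starSubalgebra_topologicalClosure_eq_top_of_separatesPoints A hsep
  have hmem : r Ψ ∈ A.topologicalClosure := by rw [htop]; trivial
  have hmem' : r Ψ ∈ closure (A : Set C(B5a_K ι R, ℂ)) := hmem
  obtain ⟨g, hg, hd⟩ := Metric.mem_closure_iff.mp hmem' ε hε
  obtain ⟨Φ, hΦ, rfl⟩ := hg
  refine ⟨Φ, hΦ, fun w hw => ?_⟩
  have h1 : dist (r Ψ ⟨w, hw⟩) (r Φ ⟨w, hw⟩) ≤ dist (r Ψ) (r Φ) :=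
    ContinuousMap.dist_apply_le_dist _
  have h2 : dist (r Ψ ⟨w, hw⟩) (r Φ ⟨w, hw⟩) = ‖(Ψ - Φ) w‖ := by
    rw [dist_eq_norm]
    rfl
  rw [← h2]
  exact h1.trans hd.le

theorem B5a_turn_mono {ι : Type*} [Fintype ι] (θ : ℝ) (a b : ι → ℕ) :
    (mono a b).comp (turnC θ) =
      (Complex.exp (θ * Complex.I) ^ (∑ i, a i) * conj (Complex.exp (θ * Complex.I)) ^ (∑ i, b i)) •
        mono a b := by
  ext w
  simp only [ContinuousMap.comp_apply, ContinuousMap.smul_apply, smul_eq_mul, B5a_mono_apply,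
    B5a_turnC_apply, map_mul, mul_pow, ← Finset.prod_pow_eq_pow_sum]
  rw [← Finset.prod_mul_distrib, ← Finset.prod_mul_distrib]
  refine Finset.prod_congr rfl fun i _ => ?_
  ring

theorem B5a_unit (θ : ℝ) :
    Complex.exp (θ * Complex.I) * conj (Complex.exp (θ * Complex.I)) = 1 := by
  rw [Complex.mul_conj, Complex.normSq_eq_norm_sq, Complex.norm_exp_ofReal_mul_I]
  simp

theorem sw_exists {ι : Type*} [Fintype ι] {R : ℝ} (Λ : ℝ → C(ι → ℂ, ℂ) →ₗ[ℂ] ℂ)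
    (hb : ∀ T > 0, ∀ (Ψ : C(ι → ℂ, ℂ)) (M : ℝ), (∀ w, (∀ i, ‖w i‖ ≤ R) → ‖Ψ w‖ ≤ M) →
      ‖Λ T Ψ‖ ≤ M)
    (hm : ∀ a b : ι → ℕ, ∃ l, Tendsto (fun T => Λ T (mono a b)) atTop (𝓝 l))
    (Ψ : C(ι → ℂ, ℂ)) : ∃ l, Tendsto (fun T => Λ T Ψ) atTop (𝓝 l) := by
  have hS : ∀ Φ ∈ B5a_S ι, ∃ l, Tendsto (fun T => Λ T Φ) atTop (𝓝 l) := by
    intro Φ hΦ
    refine Submodule.span_induction
      (p := fun Φ _ => ∃ l, Tendsto (fun T => Λ T Φ) atTop (𝓝 l)) ?_ ?_ ?_ ?_ hΦ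
    · rintro _ ⟨⟨a, b⟩, rfl⟩
      exact hm a b
    · exact ⟨0, by simp⟩
    · rintro x y _ _ ⟨l, hl⟩ ⟨l', hl'⟩
      exact ⟨l + l', by simpa using hl.add hl'⟩
    · rintro c x _ ⟨l, hl⟩
      exact ⟨c * l, by simpa using hl.const_mul c⟩
  have hc : CauchySeq (fun T => Λ T Ψ) := by
    rw [Metric.cauchySeq_iff']
    intro ε hε
    obtain ⟨Φ, hΦ, hd⟩ := B5a_dense R Ψ (show 0 < ε / 4 by positivity)
    obtain ⟨l, hl⟩ := hS Φ hΦ
    obtain ⟨N, hN⟩ := (Metric.tendsto_atTop.mp hl) (ε / 8) (by positivity)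
    refine ⟨max N 1, fun n hn => ?_⟩
    have key : ∀ T, max N 1 ≤ T → dist (Λ T Ψ) l < ε / 2 := by
      intro T hT
      have hT0 : 0 < T := lt_of_lt_of_le one_pos ((le_max_right _ _).trans hT)
      have h1 : ‖Λ T (Ψ - Φ)‖ ≤ ε / 4 := hb T hT0 _ _ hd
      have h2 := hN T ((le_max_left _ _).trans hT)
      rw [map_sub] at h1
      calc dist (Λ T Ψ) l ≤ dist (Λ T Ψ) (Λ T Φ) + dist (Λ T Φ) l := dist_triangle _ _ _
        _ < ε / 4 + ε / 4 := by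
          rw [dist_eq_norm (Λ T Ψ)]
          linarith
        _ = ε / 2 := by ring
    calc dist (Λ n Ψ) (Λ (max N 1) Ψ) ≤ dist (Λ n Ψ) l + dist (Λ (max N 1) Ψ) l :=
          dist_triangle_right _ _ _
      _ < ε / 2 + ε / 2 := add_lt_add (key n hn) (key _ le_rfl)
      _ = ε := by ring
  exact cauchySeq_tendsto_of_complete hc

theorem sw_turn {ι : Type*} [Fintype ι] {R : ℝ} (Λ : ℝ → C(ι → ℂ, ℂ) →ₗ[ℂ] ℂ)
    (hb : ∀ T > 0, ∀ (Ψ : C(ι → ℂ, ℂ)) (M : ℝ), (∀ w, (∀ i, ‖w i‖ ≤ R) → ‖Ψ w‖ ≤ M) →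
      ‖Λ T Ψ‖ ≤ M)
    (hm : ∀ a b : ι → ℕ, ∑ i, a i ≠ ∑ i, b i → Tendsto (fun T => Λ T (mono a b)) atTop (𝓝 0))
    (Ψ : C(ι → ℂ, ℂ)) (θ : ℝ) :
    Tendsto (fun T => Λ T (Ψ.comp (turnC θ)) - Λ T Ψ) atTop (𝓝 0) := by
  have hS : ∀ Φ ∈ B5a_S ι, Tendsto (fun T => Λ T (Φ.comp (turnC θ)) - Λ T Φ) atTop (𝓝 0) := by
    intro Φ hΦ
    refine Submodule.span_induction
      (p := fun Φ _ => Tendsto (fun T => Λ T (Φ.comp (turnC θ)) - Λ T Φ) atTop (𝓝 0))
      ?_ ?_ ?_ ?_ hΦ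
    · rintro _ ⟨⟨a, b⟩, rfl⟩
      show Tendsto (fun T => Λ T ((mono a b).comp (turnC θ)) - Λ T (mono a b)) atTop (𝓝 0)
      by_cases h : ∑ i, a i = ∑ i, b i
      · have hu : Complex.exp (θ * Complex.I) ^ (∑ i, a i) *
            conj (Complex.exp (θ * Complex.I)) ^ (∑ i, b i) = 1 := by
          rw [h, ← mul_pow, B5a_unit, one_pow]
        rw [B5a_turn_mono, hu, one_smul]
        simp
      · have := (hm a b h).const_mul (Complex.exp (θ * Complex.I) ^ (∑ i, a i) *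
            conj (Complex.exp (θ * Complex.I)) ^ (∑ i, b i))
        rw [mul_zero] at this
        have h2 := this.sub (hm a b h)
        rw [sub_zero] at h2
        refine h2.congr fun T => ?_
        rw [B5a_turn_mono, map_smul, smul_eq_mul]
    · have h0 : (0 : C(ι → ℂ, ℂ)).comp (turnC θ) = 0 := rfl
      simp [h0]
    · intro x y _ _ hx hy
      have h0 : (x + y).comp (turnC θ) = x.comp (turnC θ) + y.comp (turnC θ) := rfl
      have h1 := hx.add hy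
      rw [add_zero] at h1
      refine h1.congr fun T => ?_
      rw [h0, map_add, map_add]
      ring
    · intro c x _ hx
      have h0 : (c • x).comp (turnC θ) = c • x.comp (turnC θ) := rfl
      have h1 := hx.const_mul c
      rw [mul_zero] at h1
      refine h1.congr fun T => ?_
      rw [h0, map_smul, map_smul, smul_eq_mul, smul_eq_mul]
      ring
  rw [Metric.tendsto_atTop]
  intro ε hε
  obtain ⟨Φ, hΦ, hd⟩ := B5a_dense R Ψ (show 0 < ε / 4 by positivity)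
  obtain ⟨N, hN⟩ := (Metric.tendsto_atTop.mp (hS Φ hΦ)) (ε / 4) (by positivity)
  refine ⟨max N 1, fun T hT => ?_⟩
  have hT0 : 0 < T := lt_of_lt_of_le one_pos ((le_max_right _ _).trans hT)
  have h1 : ‖Λ T (Ψ - Φ)‖ ≤ ε / 4 := hb T hT0 _ _ hd
  have h2 : ‖Λ T ((Ψ - Φ).comp (turnC θ))‖ ≤ ε / 4 := by
    refine hb T hT0 _ _ fun w hw => ?_
    have h3 := hd (turnC θ w) fun i => by
      rw [B5a_turnC_apply, norm_mul, Complex.norm_exp_ofReal_mul_I, one_mul]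
      exact hw i
    exact h3
  have h3 := hN T ((le_max_left _ _).trans hT)
  rw [dist_zero_right] at h3 ⊢
  have h4 : (Ψ - Φ).comp (turnC θ) = Ψ.comp (turnC θ) - Φ.comp (turnC θ) := rfl
  rw [h4, map_sub] at h2
  rw [map_sub] at h1
  have h5 : Λ T (Ψ.comp (turnC θ)) - Λ T Ψ =
      (Λ T (Ψ.comp (turnC θ)) - Λ T (Φ.comp (turnC θ))) - (Λ T Ψ - Λ T Φ) +
        (Λ T (Φ.comp (turnC θ)) - Λ T Φ) := by ring
  rw [h5]
  calc _ ≤ ‖(Λ T (Ψ.comp (turnC θ)) - Λ T (Φ.comp (turnC θ))) - (Λ T Ψ - Λ T Φ)‖ +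
        ‖Λ T (Φ.comp (turnC θ)) - Λ T Φ‖ := norm_add_le _ _
    _ ≤ ‖Λ T (Ψ.comp (turnC θ)) - Λ T (Φ.comp (turnC θ))‖ + ‖Λ T Ψ - Λ T Φ‖ +
        ‖Λ T (Φ.comp (turnC θ)) - Λ T Φ‖ := by
      gcongr
      exact norm_sub_le _ _
    _ < ε := by linarith

end

end Pool.Agent.Lib_helper25.PV
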