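import Pool.Agent.Lib_helper25.PV.Defs

/-! Project PV (MP_b08f5f_an): continuity of dilations in `L²`. -/

set_option autoImplicit false

namespace Pool.Agent.Lib_helper25.PV

open MeasureTheory Filter Topology Set
open scoped ComplexConjugate

noncomputable section

theorem B4_dil {N : ℕ} {f : Conf N → ℂ} (hf : Continuous f) (hs : HasCompactSupport f) :
    Tendsto (fun r : ℝ => eLpNorm (fun z => f ((r : ℂ) • z) - f z) 2 volume) (𝓝 1) (𝓝 0) := by
  obtain ⟨R₀, hR₀⟩ := hs.isCompact.isBounded.subset_closedBall (0 : Conf N)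
  set R : ℝ := max R₀ 1 with hRdef
  have hR1 : 1 ≤ R := le_max_right _ _
  have hR0 : 0 < R := lt_of_lt_of_le one_pos hR1
  have hR : ∀ z, R < ‖z‖ → f z = 0 := by
    intro z hz
    by_contra h
    have h1 : z ∈ tsupport f := subset_tsupport f h
    have h2 := hR₀ h1
    rw [mem_closedBall_zero_iff] at h2
    exact absurd (h2.trans (le_max_left _ _)) (not_le.mpr hz)
  have huc : UniformContinuous f := hs.uniformContinuous_of_continuous hf
  set K : Set (Conf N) := Metric.closedBall 0 (2 * R) with hKdef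
  have hK : volume K ≠ ⊤ := (isCompact_closedBall _ _).measure_lt_top.ne
  set c : ENNReal := volume K ^ (2 : ENNReal).toReal⁻¹ with hc
  have hc' : c ≠ ⊤ := ENNReal.rpow_ne_top_of_nonneg (by positivity) hK
  rw [ENNReal.tendsto_nhds_zero]
  intro ε hε
  have hlim : Tendsto (fun d : ℝ => c * ENNReal.ofReal d) (𝓝[>] 0) (𝓝 0) := by
    have h1 : Tendsto (fun d : ℝ => ENNReal.ofReal d) (𝓝[>] 0) (𝓝 0) := by
      have := ENNReal.continuous_ofReal.tendsto 0
      rw [ENNReal.ofReal_zero] at this
      exact this.mono_left nhdsWithin_le_nhds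
    have h2 := ENNReal.Tendsto.const_mul (a := c) h1 (Or.inr hc')
    rwa [mul_zero] at h2
  obtain ⟨d, hd, hd0⟩ :=
    (((ENNReal.tendsto_nhds_zero.mp hlim) ε hε).and self_mem_nhdsWithin).exists
  have hd0' : 0 < d := hd0
  obtain ⟨η, hη, hη'⟩ := Metric.uniformContinuous_iff.mp huc d hd0'
  have hη2 : 0 < min (1 / 2) (η / (2 * R)) := lt_min (by norm_num) (by positivity)
  filter_upwards [Metric.ball_mem_nhds (1 : ℝ) hη2] with r hr
  rw [Metric.mem_ball, Real.dist_eq] at hr
  have hr1 : |r - 1| < 1 / 2 := lt_of_lt_of_le hr (min_le_left _ _)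
  have hr2 : |r - 1| < η / (2 * R) := lt_of_lt_of_le hr (min_le_right _ _)
  have hrpos : 1 / 2 < r := by
    have := (abs_lt.mp hr1).1
    linarith
  have hzero : ∀ z, 2 * R < ‖z‖ → f ((r : ℂ) • z) - f z = 0 := by
    intro z hz
    have h1 : f z = 0 := hR z (by linarith)
    have h2 : f ((r : ℂ) • z) = 0 := by
      refine hR _ ?_
      rw [norm_smul, Complex.norm_real, Real.norm_eq_abs, abs_of_pos (by linarith)]
      nlinarith
    rw [h1, h2, sub_zero]
  have hsup : Function.support (fun z => f ((r : ℂ) • z) - f z) ⊆ K := by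
    intro z hz
    rw [hKdef, mem_closedBall_zero_iff]
    by_contra h
    exact hz (hzero z (not_le.mp h))
  have hbd : ∀ z, ‖f ((r : ℂ) • z) - f z‖ ≤ d := by
    intro z
    by_cases hz : ‖z‖ ≤ 2 * R
    · rw [← dist_eq_norm]
      refine (hη' ?_).le
      have h3 : (r : ℂ) • z - z = ((r - 1 : ℝ) : ℂ) • z := by
        rw [Complex.ofReal_sub, sub_smul, Complex.ofReal_one, one_smul]
      rw [dist_eq_norm, h3, norm_smul, Complex.norm_real, Real.norm_eq_abs]
      calc |r - 1| * ‖z‖ ≤ |r - 1| * (2 * R) := by gcongr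
        _ < η / (2 * R) * (2 * R) := by
          refine mul_lt_mul_of_pos_right hr2 (by positivity)
        _ = η := by field_simp
    · rw [hzero z (not_le.mp hz), norm_zero]
      exact hd0'.le
  rw [← eLpNorm_restrict_eq_of_support_subset hsup]
  refine (eLpNorm_le_of_ae_bound (Eventually.of_forall hbd)).trans ?_
  rw [Measure.restrict_apply_univ]
  exact hd

end

end Pool.Agent.Lib_helper25.PV
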