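import Pool.Agent.Lib_helper25.PV.Defs
import Pool.Agent.Lib_helper31.PV.B5a

/-! Project PV (MP_b08f5f_an), blocks ZC, ZD: the monomials are enough. -/

set_option autoImplicit false

namespace Pool.Agent.Lib_helper25.PV

open MeasureTheory Filter Topology Set
open scoped ComplexConjugate

noncomputable section

theorem ZC_integrable {N : ℕ} (ν : Measure (Conf N)) [IsFiniteMeasure ν] {R : ℝ}
    (hν : ∀ᵐ w ∂ν, ∀ i, ‖w i‖ ≤ R) {Ψ : Conf N → ℂ} (hΨ : Continuous Ψ) : Integrable Ψ ν := by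
  obtain ⟨C, hC⟩ := (B5a_isCompact_K (Fin N) R).exists_bound_of_continuousOn hΨ.continuousOn
  refine Integrable.of_bound hΨ.measurable.aestronglyMeasurable C ?_
  filter_upwards [hν] with w hw
  exact hC w hw

theorem ZC_close {N : ℕ} (ν : Measure (Conf N)) [IsProbabilityMeasure ν] {R ε : ℝ}
    (hν : ∀ᵐ w ∂ν, ∀ i, ‖w i‖ ≤ R) (Ψ Φ : C(Fin N → ℂ, ℂ))
    (hd : ∀ w, (∀ i, ‖w i‖ ≤ R) → ‖(Ψ - Φ) w‖ ≤ ε) :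
    ‖(∫ w, Ψ w ∂ν) - ∫ w, Φ w ∂ν‖ ≤ ε := by
  rw [← integral_sub (ZC_integrable ν hν Ψ.continuous) (ZC_integrable ν hν Φ.continuous)]
  have h3 : ∀ᵐ w ∂ν, ‖Ψ w - Φ w‖ ≤ ε := by
    filter_upwards [hν] with w hw
    exact hd w hw
  have h4 := norm_integral_le_of_norm_le_const h3
  simpa using h4

theorem Z_ext {N : ℕ} {R : ℝ} {ν₁ ν₂ : Measure (Conf N)} [IsProbabilityMeasure ν₁]
    [IsProbabilityMeasure ν₂] (h1 : ∀ᵐ w ∂ν₁, ∀ i, ‖w i‖ ≤ R) (h2 : ∀ᵐ w ∂ν₂, ∀ i, ‖w i‖ ≤ R)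
    (h : ∀ a b : Fin N → ℕ, ∫ w, mono a b w ∂ν₁ = ∫ w, mono a b w ∂ν₂) : ν₁ = ν₂ := by
  have hi1 : ∀ Φ : C(Fin N → ℂ, ℂ), Integrable (fun w => Φ w) ν₁ :=
    fun Φ => ZC_integrable ν₁ h1 Φ.continuous
  have hi2 : ∀ Φ : C(Fin N → ℂ, ℂ), Integrable (fun w => Φ w) ν₂ :=
    fun Φ => ZC_integrable ν₂ h2 Φ.continuous
  have hS : ∀ Φ ∈ B5a_S (Fin N), ∫ w, Φ w ∂ν₁ = ∫ w, Φ w ∂ν₂ := by
    intro Φ hΦ
    refine Submodule.span_induction (p := fun (Φ : C(Fin N → ℂ, ℂ)) _ =>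
      ∫ w, Φ w ∂ν₁ = ∫ w, Φ w ∂ν₂) ?_ ?_ ?_ ?_ hΦ
    · rintro _ ⟨⟨a, b⟩, rfl⟩
      exact h a b
    · simp
    · intro x y _ _ hx hy
      have e1 : ∫ w, (x + y) w ∂ν₁ = (∫ w, x w ∂ν₁) + ∫ w, y w ∂ν₁ := integral_add (hi1 x) (hi1 y)
      have e2 : ∫ w, (x + y) w ∂ν₂ = (∫ w, x w ∂ν₂) + ∫ w, y w ∂ν₂ := integral_add (hi2 x) (hi2 y)
      rw [e1, e2, hx, hy]
    · intro c x _ hx
      have e1 : ∫ w, (c • x) w ∂ν₁ = c * ∫ w, x w ∂ν₁ := integral_const_mul c _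
      have e2 : ∫ w, (c • x) w ∂ν₂ = c * ∫ w, x w ∂ν₂ := integral_const_mul c _
      rw [e1, e2, hx]
  have hall : ∀ Ψ : C(Fin N → ℂ, ℂ), ∫ w, Ψ w ∂ν₁ = ∫ w, Ψ w ∂ν₂ := by
    intro Ψ
    by_contra hne
    have hpos : 0 < ‖(∫ w, Ψ w ∂ν₁) - ∫ w, Ψ w ∂ν₂‖ := norm_pos_iff.mpr (sub_ne_zero.mpr hne)
    obtain ⟨Φ, hΦ, hd⟩ := B5a_dense R Ψ
      (show 0 < ‖(∫ w, Ψ w ∂ν₁) - ∫ w, Ψ w ∂ν₂‖ / 4 by positivity)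
    have e1 := ZC_close ν₁ h1 Ψ Φ hd
    have e2 := ZC_close ν₂ h2 Ψ Φ hd
    rw [hS Φ hΦ] at e1
    have e3 : (∫ w, Ψ w ∂ν₁) - ∫ w, Ψ w ∂ν₂ =
        ((∫ w, Ψ w ∂ν₁) - ∫ w, Φ w ∂ν₂) - ((∫ w, Ψ w ∂ν₂) - ∫ w, Φ w ∂ν₂) := by ring
    have e4 : ‖(∫ w, Ψ w ∂ν₁) - ∫ w, Ψ w ∂ν₂‖ ≤
        ‖(∫ w, Ψ w ∂ν₁) - ∫ w, Φ w ∂ν₂‖ + ‖(∫ w, Ψ w ∂ν₂) - ∫ w, Φ w ∂ν₂‖ := by
      conv_lhs => rw [e3]
      exact norm_sub_le _ _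
    linarith
  refine ext_of_forall_integral_eq_of_IsFiniteMeasure fun f => ?_
  have e := hall ⟨fun w => ((f w : ℝ) : ℂ), by fun_prop⟩
  simp only [ContinuousMap.coe_mk, integral_complex_ofReal] at e
  exact_mod_cast e

theorem Z_tendsto {N : ℕ} {R : ℝ} {x : ℝ → Conf N} (hx : Continuous x)
    (hR : ∀ t i, ‖x t i‖ ≤ R) {ν : Measure (Conf N)} [IsProbabilityMeasure ν]
    (h1 : ∀ᵐ w ∂ν, ∀ i, ‖w i‖ ≤ R)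
    (h : ∀ a b : Fin N → ℕ, Tendsto (fun T : ℝ => (T : ℂ)⁻¹ * ∫ t in (0 : ℝ)..T,
      mono a b (x t)) atTop (𝓝 (∫ w, mono a b w ∂ν)))
    {Ψ : Conf N → ℝ} (hΨ : Continuous Ψ) :
    Tendsto (fun T : ℝ => T⁻¹ * ∫ t in (0 : ℝ)..T, Ψ (x t)) atTop (𝓝 (∫ w, Ψ w ∂ν)) := by
  have hi : ∀ Φ : C(Fin N → ℂ, ℂ), Integrable (fun w => Φ w) ν :=
    fun Φ => ZC_integrable ν h1 Φ.continuous
  have hc : ∀ (Φ : C(Fin N → ℂ, ℂ)) (T : ℝ),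
      IntervalIntegrable (fun t : ℝ => Φ (x t)) volume 0 T :=
    fun Φ T => (Φ.continuous.comp hx).intervalIntegrable _ _
  have hS : ∀ Φ ∈ B5a_S (Fin N), Tendsto (fun T : ℝ => (T : ℂ)⁻¹ * ∫ t in (0 : ℝ)..T,
      Φ (x t)) atTop (𝓝 (∫ w, Φ w ∂ν)) := by
    intro Φ hΦ
    refine Submodule.span_induction (p := fun (Φ : C(Fin N → ℂ, ℂ)) _ =>
      Tendsto (fun T : ℝ => (T : ℂ)⁻¹ * ∫ t in (0 : ℝ)..T, Φ (x t)) atTop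
        (𝓝 (∫ w, Φ w ∂ν))) ?_ ?_ ?_ ?_ hΦ
    · rintro _ ⟨⟨a, b⟩, rfl⟩
      exact h a b
    · simp
    · intro y y' _ _ hy hy'
      have e1 : ∫ w, (y + y') w ∂ν = (∫ w, y w ∂ν) + ∫ w, y' w ∂ν := integral_add (hi y) (hi y')
      rw [e1]
      refine (hy.add hy').congr fun T => ?_
      simp only [ContinuousMap.add_apply]
      rw [intervalIntegral.integral_add (hc y T) (hc y' T), mul_add]
    · intro c y _ hy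
      have e1 : ∫ w, (c • y) w ∂ν = c * ∫ w, y w ∂ν := integral_const_mul c _
      rw [e1]
      refine (hy.const_mul c).congr fun T => ?_
      simp only [ContinuousMap.smul_apply, smul_eq_mul]
      rw [intervalIntegral.integral_const_mul]
      ring
  set Ψ' : C(Fin N → ℂ, ℂ) := ⟨fun w => ((Ψ w : ℝ) : ℂ), by fun_prop⟩ with hΨ'
  have hlim : Tendsto (fun T : ℝ => (T : ℂ)⁻¹ * ∫ t in (0 : ℝ)..T, Ψ' (x t)) atTop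
      (𝓝 (∫ w, Ψ' w ∂ν)) := by
    rw [Metric.tendsto_atTop]
    intro ε hε
    obtain ⟨Φ, hΦ, hd⟩ := B5a_dense R Ψ' (show 0 < ε / 4 by positivity)
    obtain ⟨T₀, hT₀⟩ := (Metric.tendsto_atTop.mp (hS Φ hΦ)) (ε / 4) (by positivity)
    refine ⟨max T₀ 1, fun T hT => ?_⟩
    have hT0 : 0 < T := lt_of_lt_of_le one_pos ((le_max_right _ _).trans hT)
    have e1 : ‖(T : ℂ)⁻¹ * (∫ t in (0 : ℝ)..T, Ψ' (x t)) -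
        (T : ℂ)⁻¹ * ∫ t in (0 : ℝ)..T, Φ (x t)‖ ≤ ε / 4 := by
      rw [← mul_sub, ← intervalIntegral.integral_sub (hc Ψ' T) (hc Φ T), norm_mul, norm_inv,
        Complex.norm_real, Real.norm_of_nonneg hT0.le]
      have h2 : ‖∫ t in (0 : ℝ)..T, (Ψ' (x t) - Φ (x t))‖ ≤ ε / 4 * |T - 0| :=
        intervalIntegral.norm_integral_le_of_norm_le_const fun t _ => hd _ (hR t)
      rw [sub_zero, abs_of_pos hT0] at h2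
      calc T⁻¹ * ‖∫ t in (0 : ℝ)..T, (Ψ' (x t) - Φ (x t))‖ ≤ T⁻¹ * (ε / 4 * T) := by gcongr
        _ = ε / 4 := by field_simp
    have e2 := ZC_close ν h1 Ψ' Φ hd
    have e3 := hT₀ T ((le_max_left _ _).trans hT)
    rw [dist_eq_norm] at e3 ⊢
    have e4 : (T : ℂ)⁻¹ * (∫ t in (0 : ℝ)..T, Ψ' (x t)) - ∫ w, Ψ' w ∂ν =
        ((T : ℂ)⁻¹ * (∫ t in (0 : ℝ)..T, Ψ' (x t)) - (T : ℂ)⁻¹ * ∫ t in (0 : ℝ)..T, Φ (x t)) +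
          ((T : ℂ)⁻¹ * (∫ t in (0 : ℝ)..T, Φ (x t)) - ∫ w, Φ w ∂ν) -
          ((∫ w, Ψ' w ∂ν) - ∫ w, Φ w ∂ν) := by ring
    rw [e4]
    calc _ ≤ ‖((T : ℂ)⁻¹ * (∫ t in (0 : ℝ)..T, Ψ' (x t)) -
          (T : ℂ)⁻¹ * ∫ t in (0 : ℝ)..T, Φ (x t)) +
          ((T : ℂ)⁻¹ * (∫ t in (0 : ℝ)..T, Φ (x t)) - ∫ w, Φ w ∂ν)‖ +
          ‖(∫ w, Ψ' w ∂ν) - ∫ w, Φ w ∂ν‖ := norm_sub_le _ _
      _ ≤ ‖(T : ℂ)⁻¹ * (∫ t in (0 : ℝ)..T, Ψ' (x t)) -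
          (T : ℂ)⁻¹ * ∫ t in (0 : ℝ)..T, Φ (x t)‖ +
          ‖(T : ℂ)⁻¹ * (∫ t in (0 : ℝ)..T, Φ (x t)) - ∫ w, Φ w ∂ν‖ +
          ‖(∫ w, Ψ' w ∂ν) - ∫ w, Φ w ∂ν‖ := by
        gcongr
        exact norm_add_le _ _
      _ < ε := by linarith
  have e5 : ∀ T : ℝ, (T : ℂ)⁻¹ * ∫ t in (0 : ℝ)..T, Ψ' (x t) =
      ((T⁻¹ * ∫ t in (0 : ℝ)..T, Ψ (x t) : ℝ) : ℂ) := by
    intro T
    have : ∫ t in (0 : ℝ)..T, Ψ' (x t) = ((∫ t in (0 : ℝ)..T, Ψ (x t) : ℝ) : ℂ) :=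
      intervalIntegral.integral_ofReal
    rw [this]
    push_cast
    rfl
  have e6 : ∫ w, Ψ' w ∂ν = ((∫ w, Ψ w ∂ν : ℝ) : ℂ) := integral_complex_ofReal
  rw [e6] at hlim
  simp only [e5] at hlim
  have e7 := (Complex.continuous_re.tendsto _).comp hlim
  simp only [Function.comp_def, Complex.ofReal_re] at e7
  exact e7

end

end Pool.Agent.Lib_helper25.PV
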